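import Pool.Agent.H10.IEP.Targets

/-!
# MP_e37c09_lc, module FQ: the enumeration of the values
-/

open Ordinal Cardinal Order Set
open scoped ZFSet

universe u

namespace Pool.Agent.H19.IEP.FQ

open _root_.HD Pool.Agent.H10.IEP

/-- the relation `F` with the values replaced by their places in `X` -/
noncomputable def Fp (δ : Ordinal.{u}) (F : ZFSet.{u}) (X : Set Ordinal.{u}) : ZFSet.{u} :=
  ZFSet.sep (fun p => ∃ (s : ZFSet.{u}) (i z : Ordinal.{u}), p = ZFSet.pair s i.toZFSet ∧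
    nth X i z ∧ ZFSet.pair s z.toZFSet ∈ F)
    (ZFSet.prod (ZFSet.sUnion (ZFSet.sUnion F)) δ.toZFSet)

theorem mem_Fp {δ : Ordinal.{u}} {F : ZFSet.{u}} {X : Set Ordinal.{u}} {p : ZFSet.{u}} :
    p ∈ Fp δ F X ↔ ∃ (s : ZFSet.{u}), ∃ i < δ, ∃ z, p = ZFSet.pair s i.toZFSet ∧
      nth X i z ∧ ZFSet.pair s z.toZFSet ∈ F := by
  unfold Fp
  rw [ZFSet.mem_sep]
  constructor
  · rintro ⟨h1, s, i, z, rfl, h2, h3⟩
    rw [ZFSet.pair_mem_prod, toZFSet_mem_toZFSet_iff] at h1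
    exact ⟨s, i, h1.2, z, rfl, h2, h3⟩
  · rintro ⟨s, i, hi, z, rfl, h2, h3⟩
    refine ⟨?_, s, i, z, rfl, h2, h3⟩
    rw [ZFSet.pair_mem_prod, toZFSet_mem_toZFSet_iff]
    refine ⟨?_, hi⟩
    rw [ZFSet.mem_sUnion]
    refine ⟨{s}, ?_, by simp⟩
    rw [ZFSet.mem_sUnion]
    refine ⟨_, h3, ?_⟩
    unfold ZFSet.pair
    simp

theorem od_Fp (hDB : T_DB.{u}) {F : ZFSet.{u}} {X : Set Ordinal.{u}} (hF : OD F) (hX : DS X)
    (δ : Ordinal.{u}) : OD (Fp δ F X) := by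
  have hn : DO.{u} fun w => nth X (w 0) (w 1) := hDB (fun a _ => a ∈ X) hX
  obtain ⟨Q, hQ, h⟩ := hn
  refine OD.of_mem (P := fun v => ∃ s : ZFSet.{u}, ∃ i ∈ δ.toZFSet, ∃ z : ZFSet.{u}, z.IsOrdinal ∧
    Q (cons i fun _ => z) ∧ ZFSet.pair s z ∈ F ∧ v 0 = ZFSet.pair s i) ?_ fun v => ?_
  · refine DZ.od (R := fun d v => ∃ s : ZFSet.{u}, ∃ i ∈ d, ∃ z : ZFSet.{u}, z.IsOrdinal ∧
      Q (cons i fun _ => z) ∧ ZFSet.pair s z ∈ F ∧ v 0 = ZFSet.pair s i) (OD.ordinal δ) ?_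
    refine DZ.od (R := fun f v => ∃ s : ZFSet.{u}, ∃ i ∈ v 0, ∃ z : ZFSet.{u}, z.IsOrdinal ∧
      Q (cons i fun _ => z) ∧ ZFSet.pair s z ∈ f ∧ v 1 = ZFSet.pair s i) hF ?_
    refine DZ.ex (DZ.exMem 2 (DZ.ex ((DZ.ord 0).and (DZ.and ?_ ((loc_pmem 2 0 3).dz.and
      (loc_pair 5 2 1).dz)))))
    refine (hQ.ren (fun n => if n = 0 then 1 else 0)).congr fun v => ?_
    have : (cons (v 1) fun _ => v 0) = fun n => v (if n = 0 then 1 else 0) := by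
      funext n
      rcases n with _ | n <;> simp
    rw [← this]
  · rw [mem_Fp]
    have e : ∀ a b : Ordinal.{u}, (cons a.toZFSet fun _ => b.toZFSet) = ov (cns a fun _ => b) := by
      intro a b
      rw [ov_cns]
      rfl
    constructor
    · rintro ⟨s, i, hi, z, hz, hq, h1, h2⟩
      obtain ⟨i, hi', rfl⟩ := mem_toZFSet_iff.1 hi
      obtain ⟨z, rfl⟩ := ord_of hz
      rw [e] at hq
      exact ⟨s, i, hi', z, h2, (h _).2 hq, h1⟩
    · rintro ⟨s, i, hi, z, h1, h2, h3⟩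
      refine ⟨s, _, toZFSet_mem_toZFSet_iff.2 hi, _, ZFSet.isOrdinal_toZFSet z, ?_, h3, h1⟩
      rw [e]
      exact (h (cns i fun _ => z)).1 h2

theorem pf_FQ (hDB : T_DB.{u}) (hVH : T_VH.{u}) : T_FQ.{u} := by
  intro δ F X hF hFn hX
  refine ⟨Fp δ F X, od_Fp hDB hF hX δ, ?_, ?_⟩
  · intro s x y hx hy
    obtain ⟨s1, i, -, z, h1, h2, h3⟩ := mem_Fp.1 hx
    obtain ⟨s2, i', -, z', h1', h2', h3'⟩ := mem_Fp.1 hy
    obtain ⟨rfl, rfl⟩ := ZFSet.pair_injective h1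
    obtain ⟨rfl, rfl⟩ := ZFSet.pair_injective h1'
    have hz : z = z' := toZFSet_injective (hFn _ _ _ h3 h3')
    subst hz
    have hlt := (hVH X).2.1
    have h4 := hlt i i' z z h2 h2'
    have h5 := hlt i' i z z h2' h2
    have : i = i' := by
      rcases lt_trichotomy i i' with h | h | h
      · exact absurd (h4.1 h) (lt_irrefl _)
      · exact h
      · exact absurd (h5.1 h) (lt_irrefl _)
    rw [this]
  · intro s i hi z hz hs
    exact mem_Fp.2 ⟨s, i, hi, z, rfl, hz, hs⟩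

end Pool.Agent.H19.IEP.FQ
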