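import Pool.Agent.H10.IEP.Targets

/-!
# MP_e37c09_lc, module LD: definability of `Ph`
-/

open Ordinal Cardinal Order Set
open scoped ZFSet

universe u

namespace Pool.Agent.H19.IEP.LD

open _root_.HD Pool.Agent.H10.IEP

/-- `Ph` as a predicate of sets -/
def RP (F : ZFSet.{u}) (v : ℕ → ZFSet.{u}) : Prop :=
  (v 0).IsOrdinal ∧ (v 1).IsOrdinal ∧ (v 2).IsOrdinal ∧ Ph (v 0).rank (v 1).rank F (v 2).rank

theorem pf_LD (hLP : T_LP.{u}) : T_LD.{u} := by
  intro F hF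
  have h1 : DZ.{u} fun v => RP (v 0) (fun n => v (n + 1)) :=
    (DZ.ren (P := fun v => (v 0).IsOrdinal ∧ (v 1).IsOrdinal ∧ (v 3).IsOrdinal ∧
      Ph (v 0).rank (v 1).rank (v 2) (v 3).rank) (Loc.dz hLP)
      (fun n => if n = 0 then 1 else if n = 1 then 2 else if n = 2 then 0 else 3))
  have h2 : DZ.{u} (RP F) := DZ.od hF h1
  refine h2.do.congr fun w => ?_
  unfold RP
  have e0 : (ov w 0).rank = w 0 := rank_toZFSet _
  have e1 : (ov w 1).rank = w 1 := rank_toZFSet _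
  have e2 : (ov w 2).rank = w 2 := rank_toZFSet _
  rw [e0, e1, e2]
  exact ⟨fun h => ⟨ZFSet.isOrdinal_toZFSet _, ZFSet.isOrdinal_toZFSet _,
    ZFSet.isOrdinal_toZFSet _, h⟩, fun h => h.2.2.2⟩

end Pool.Agent.H19.IEP.LD
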