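import Pool.Agent.H10.IEP.Targets

/-!
# MP_e37c09_lc, modules LP and LD: definability of `Ph`
-/

open Ordinal Cardinal Order Set
open scoped ZFSet

universe u

namespace Pool.Agent.H19.IEP.LP

open _root_.HD Pool.Agent.H10.IEP

/-- `A` is unbounded in `r` and closed under limits of cofinality at most `m`, at the level of
sets -/
def MCZ (m r A : ZFSet.{u}) : Prop :=
  (∀ a ∈ r, ∃ b ∈ r, a ∈ b ∧ b ∈ A) ∧
  ∀ x ∈ r, (∃ e ∈ x, e = e) → ((∃ n ∈ m, n.IsOrdinal ∧ x.IsOrdinal ∧ Cf n.rank x.rank) ∨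
    (m.IsOrdinal ∧ x.IsOrdinal ∧ Cf m.rank x.rank)) →
    (∀ y ∈ x, ∃ z ∈ x, y ∈ z ∧ z ∈ A) → x ∈ A

theorem loc_cf (hLA : T_LA.{u}) (i j : ℕ) :
    Loc.{u} fun v => (v i).IsOrdinal ∧ (v j).IsOrdinal ∧ Cf (v i).rank (v j).rank :=
  hLA.ren (fun n => if n = 0 then i else j)

theorem loc_MCZ (hLA : T_LA.{u}) (i j k : ℕ) : Loc.{u} (fun v => MCZ (v i) (v j) (v k)) :=
  (Loc.allMem _ (Loc.exMem _ ((Loc.mem _ _).and (Loc.mem _ _)))).and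
    (Loc.allMem _ ((Loc.exMem _ (Loc.eq _ _)).imp (((Loc.exMem _ (loc_cf hLA 0 1)).or
      (loc_cf hLA (i + 1) 0)).imp ((Loc.allMem _ (Loc.exMem _
      ((Loc.mem _ _).and (Loc.mem _ _)))).imp (Loc.mem _ _)))))

theorem cf_iff (μ x : Ordinal.{u}) : ((∃ n ∈ μ.toZFSet, n.IsOrdinal ∧ x.toZFSet.IsOrdinal ∧
    Cf n.rank x.toZFSet.rank) ∨ (μ.toZFSet.IsOrdinal ∧ x.toZFSet.IsOrdinal ∧
      Cf μ.toZFSet.rank x.toZFSet.rank)) ↔ x.cof.ord ≤ μ := by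
  simp only [rank_toZFSet, ZFSet.isOrdinal_toZFSet, true_and]
  constructor
  · rintro (⟨n, hn, -, h⟩ | h)
    · obtain ⟨n, hn', rfl⟩ := mem_toZFSet_iff.1 hn
      rw [rank_toZFSet] at h
      exact h.le.trans hn'.le
    · exact h.le
  · intro h
    rcases h.lt_or_eq with h | h
    · exact Or.inl ⟨_, toZFSet_mem_toZFSet_iff.2 h, ZFSet.isOrdinal_toZFSet _, by
        rw [rank_toZFSet]; rfl⟩
    · exact Or.inr h

theorem MCZ_iff (μ ρ : Ordinal.{u}) (C : ZFSet.{u}) :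
    MCZ μ.toZFSet ρ.toZFSet C ↔ MC μ ρ {a | a.toZFSet ∈ C} := by
  constructor
  · rintro ⟨h1, h2⟩
    refine ⟨fun a ha => ?_, fun x hx h0 hcf h => ?_⟩
    · obtain ⟨b, hb, h3, h4⟩ := h1 _ (toZFSet_mem_toZFSet_iff.2 ha)
      obtain ⟨b, hb', rfl⟩ := mem_toZFSet_iff.1 hb
      exact ⟨b, hb', toZFSet_mem_toZFSet_iff.1 h3, h4⟩
    · refine h2 _ (toZFSet_mem_toZFSet_iff.2 hx) ⟨_, toZFSet_mem_toZFSet_iff.2 h0, rfl⟩
        ((cf_iff μ x).2 hcf) ?_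
      intro y hy
      obtain ⟨y, hy', rfl⟩ := mem_toZFSet_iff.1 hy
      obtain ⟨z, hz, h3, h4⟩ := h y hy'
      exact ⟨_, toZFSet_mem_toZFSet_iff.2 hz, toZFSet_mem_toZFSet_iff.2 h3, h4⟩
  · intro h
    refine ⟨fun a ha => ?_, fun x hx h0 hcf h' => ?_⟩
    · obtain ⟨a, ha', rfl⟩ := mem_toZFSet_iff.1 ha
      obtain ⟨b, hb, h3, h4⟩ := h.unb a ha'
      exact ⟨_, toZFSet_mem_toZFSet_iff.2 hb, toZFSet_mem_toZFSet_iff.2 h3, h4⟩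
    · obtain ⟨x, hx', rfl⟩ := mem_toZFSet_iff.1 hx
      obtain ⟨e, he, -⟩ := h0
      obtain ⟨e, he', rfl⟩ := mem_toZFSet_iff.1 he
      refine h.cls x hx' (lt_of_le_of_lt bot_le he') ((cf_iff μ x).1 hcf) fun y hy => ?_
      obtain ⟨z, hz, h3, h4⟩ := h' _ (toZFSet_mem_toZFSet_iff.2 hy)
      obtain ⟨z, hz', rfl⟩ := mem_toZFSet_iff.1 hz
      exact ⟨z, hz', toZFSet_mem_toZFSet_iff.1 h3, h4⟩

theorem func_sq {μ : Ordinal.{u}} {A : ZFSet.{u}} {g : Ordinal.{u} → Ordinal.{u}}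
    (h : ∀ a < μ, (g a).toZFSet ∈ A) : ZFSet.IsFunc μ.toZFSet A (sq μ g) := by
  refine ⟨fun p hp => ?_, fun z hz => ?_⟩
  · obtain ⟨a, ha, rfl⟩ := H10.IEP.mem_sq.1 hp
    exact ZFSet.pair_mem_prod.2 ⟨toZFSet_mem_toZFSet_iff.2 ha, h a ha⟩
  · obtain ⟨a, ha, rfl⟩ := mem_toZFSet_iff.1 hz
    refine ⟨(g a).toZFSet, H10.IEP.mem_sq.2 ⟨a, ha, rfl⟩, fun w hw => ?_⟩
    obtain ⟨b, -, hb⟩ := H10.IEP.mem_sq.1 hw
    obtain ⟨h1, h2⟩ := ZFSet.pair_injective hb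
    rw [h2, toZFSet_injective h1]

theorem sq_of_func {μ : Ordinal.{u}} {A s : ZFSet.{u}} (hA : ∀ z ∈ A, z.IsOrdinal)
    (h : ZFSet.IsFunc μ.toZFSet A s) : ∃ g : Ordinal.{u} → Ordinal.{u},
      (∀ a < μ, (g a).toZFSet ∈ A) ∧ s = sq μ g := by
  obtain ⟨h1, h2⟩ := h
  have h3 : ∀ a < μ, ∃ b : Ordinal.{u}, ZFSet.pair a.toZFSet b.toZFSet ∈ s ∧ b.toZFSet ∈ A ∧
      ∀ w, ZFSet.pair a.toZFSet w ∈ s → w = b.toZFSet := by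
    intro a ha
    obtain ⟨w, hw, hu⟩ := h2 _ (toZFSet_mem_toZFSet_iff.2 ha)
    have hwA : w ∈ A := (ZFSet.pair_mem_prod.1 (h1 hw)).2
    obtain ⟨b, rfl⟩ := ord_of (hA w hwA)
    exact ⟨b, hw, hwA, hu⟩
  have h4 : ∀ a, ∃ b : Ordinal.{u}, a < μ → ZFSet.pair a.toZFSet b.toZFSet ∈ s ∧ b.toZFSet ∈ A ∧
      ∀ w, ZFSet.pair a.toZFSet w ∈ s → w = b.toZFSet := by
    intro a
    by_cases ha : a < μ
    · obtain ⟨b, hb⟩ := h3 a ha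
      exact ⟨b, fun _ => hb⟩
    · exact ⟨0, fun h => absurd h ha⟩
  choose g hg using h4
  refine ⟨g, fun a ha => (hg a ha).2.1, ?_⟩
  ext p
  rw [H10.IEP.mem_sq]
  constructor
  · intro hp
    obtain ⟨x, hx, y, -, rfl⟩ := ZFSet.mem_prod.1 (h1 hp)
    obtain ⟨a, ha, rfl⟩ := mem_toZFSet_iff.1 hx
    exact ⟨a, ha, by rw [(hg a ha).2.2 y hp]⟩
  · rintro ⟨a, ha, rfl⟩
    exact (hg a ha).1

theorem ph_iff (μ ρ : Ordinal.{u}) (F : ZFSet.{u}) (i : Ordinal.{u}) : Ph μ ρ F i ↔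
    ∀ A ⊆ ρ.toZFSet, MCZ μ.toZFSet ρ.toZFSet A →
      ∃ s, ZFSet.pair s i.toZFSet ∈ F ∧ ZFSet.IsFunc μ.toZFSet A s := by
  constructor
  · intro h A hA hM
    obtain ⟨g, hg, hF⟩ := h _ ((MCZ_iff μ ρ A).1 hM)
    exact ⟨_, hF, func_sq fun a ha => (hg a ha).2⟩
  · intro h A hM
    have hcl : MCZ μ.toZFSet ρ.toZFSet (os ρ A) := by
      refine (MCZ_iff μ ρ _).2 ⟨fun a ha => ?_, fun x hx h0 hcf h' => ?_⟩
      · obtain ⟨b, hb, h1, h2⟩ := hM.unb a ha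
        exact ⟨b, hb, h1, ord_mem_os.2 ⟨hb, h2⟩⟩
      · refine ord_mem_os.2 ⟨hx, hM.cls x hx h0 hcf fun y hy => ?_⟩
        obtain ⟨z, hz, h1, h2⟩ := h' y hy
        exact ⟨z, hz, h1, (ord_mem_os.1 h2).2⟩
    obtain ⟨s, hs, hf⟩ := h (os ρ A) (fun z hz => by
      obtain ⟨a, ha, -, rfl⟩ := mem_os.1 hz
      exact toZFSet_mem_toZFSet_iff.2 ha) hcl
    obtain ⟨g, hg, rfl⟩ := sq_of_func (fun z hz => by
      obtain ⟨a, -, -, rfl⟩ := mem_os.1 hz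
      exact ZFSet.isOrdinal_toZFSet a) hf
    exact ⟨g, fun a ha => ord_mem_os.1 (hg a ha), hs⟩

theorem pf_LP (hLA : T_LA.{u}) : T_LP.{u} := by
  refine Loc.congr (P := fun v => (v 0).IsOrdinal ∧ (v 1).IsOrdinal ∧ (v 3).IsOrdinal ∧
    ∀ A ⊆ v 1, MCZ (v 0) (v 1) A → ∃ s, ZFSet.pair s (v 3) ∈ v 2 ∧ ZFSet.IsFunc (v 0) A s) ?_ ?_
  · refine (loc_ord 0).and ((loc_ord 1).and ((loc_ord 3).and (Loc.allSub _
      ((loc_MCZ hLA 1 2 0).imp (Loc.ex ((loc_pmem 0 5 4).and (loc_func 2 1 0)) ?_)))))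
    rintro η hη v hv x ⟨h, -⟩
    exact fst_mem_V h (hv 3)
  · intro v
    refine and_congr_right fun h0 => and_congr_right fun h1 => and_congr_right fun h3 => ?_
    obtain ⟨m, hm⟩ := ord_of h0
    obtain ⟨r, hr⟩ := ord_of h1
    obtain ⟨i, hi⟩ := ord_of h3
    rw [hm, hr, hi, rank_toZFSet, rank_toZFSet, rank_toZFSet, ph_iff]

end Pool.Agent.H19.IEP.LP
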